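import Mathlib

/-!
# Prescribing finitely many local factors

Convolution of a function supported on rough numbers with a function supported on smooth numbers.
-/

set_option autoImplicit false

namespace Pool.Agent.Y973.MO

open Finset Filter Topology

/-- the multiplicative function with values `a p k` at the powers of the primes `p < R`, and zero at
the powers of the other primes -/
noncomputable def hh (R : ℕ) (a : ℕ → ℕ → ℂ) : ArithmeticFunction ℂ :=
  ⟨fun n => if n = 0 then 0 else n.factorization.prod fun p k => if p < R then a p k else 0,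
    by simp⟩

lemma hh_one (R : ℕ) (a : ℕ → ℕ → ℂ) : hh R a 1 = 1 := by
  simp [hh]

lemma hh_mul (R : ℕ) (a : ℕ → ℕ → ℂ) : (hh R a).IsMultiplicative := by
  refine ⟨hh_one R a, ?_⟩
  intro m n hmn
  by_cases hm : m = 0
  · subst hm; simp
  by_cases hn : n = 0
  · subst hn; simp
  have e1 : ∀ k : ℕ, hh R a k = if k = 0 then 0 else
    k.factorization.prod fun p k => if p < R then a p k else 0 := fun k => rfl
  rw [e1, e1, e1, if_neg (mul_ne_zero hm hn), if_neg hm, if_neg hn,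
    Nat.factorization_mul_of_coprime hmn, Finsupp.prod_add_index_of_disjoint]
  simpa using hmn.disjoint_primeFactors

lemma hh_pow (R : ℕ) (a : ℕ → ℕ → ℂ) (p : ℕ) (hp : p.Prime) (k : ℕ) (hk : k ≠ 0) :
    hh R a (p ^ k) = if p < R then a p k else 0 := by
  have e1 : hh R a (p ^ k) = if p ^ k = 0 then 0 else
    (p ^ k).factorization.prod fun p k => if p < R then a p k else 0 := rfl
  rw [e1, if_neg (pow_ne_zero _ hp.ne_zero), hp.factorization_pow, Finsupp.prod]
  rw [Finsupp.support_single_ne_zero _ hk, prod_singleton, Finsupp.single_eq_same]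

/-- an arithmetic function from a function -/
noncomputable def af (f : ℕ → ℂ) : ArithmeticFunction ℂ := ⟨fun n => if n = 0 then 0 else f n, by simp⟩

lemma af_apply (f : ℕ → ℂ) (n : ℕ) (hn : n ≠ 0) : af f n = f n := by
  show (if n = 0 then 0 else f n) = f n
  rw [if_neg hn]

lemma af_mul (f : ℕ → ℂ) (h1 : f 1 = 1)
    (hmul : ∀ m n : ℕ, 1 ≤ m → 1 ≤ n → Nat.Coprime m n → f (m * n) = f m * f n) :
    (af f).IsMultiplicative := by
  refine ⟨by rw [af_apply f 1 one_ne_zero, h1], ?_⟩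
  intro m n hmn
  by_cases hm : m = 0
  · subst hm; simp
  by_cases hn : n = 0
  · subst hn; simp
  rw [af_apply _ _ (mul_ne_zero hm hn), af_apply _ _ hm, af_apply _ _ hn,
    hmul m n (Nat.one_le_iff_ne_zero.2 hm) (Nat.one_le_iff_ne_zero.2 hn) hmn]

/-- summability of `h(m) m^β` -/
lemma hh_summable (R : ℕ) (a : ℕ → ℕ → ℂ) (β : ℝ) (ha0 : ∀ p, p.Prime → p < R → a p 0 = 1)
    (hs : ∀ p, p.Prime → p < R → Summable fun k : ℕ => ‖a p k‖ * (p : ℝ) ^ (β * k)) :
    Summable fun m : ℕ => ‖hh R a m‖ * (m : ℝ) ^ β := by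
  set w : ℕ → ℝ := fun m => ‖hh R a m‖ * (m : ℝ) ^ β with hw
  have hw0 : ∀ m, 0 ≤ w m := fun m => mul_nonneg (norm_nonneg _) (Real.rpow_nonneg (Nat.cast_nonneg _) _)
  have hw1 : w 1 = 1 := by
    simp only [hw]
    rw [hh_one]
    simp
  have hwm : ∀ {m n : ℕ}, Nat.Coprime m n → w (m * n) = w m * w n := by
    intro m n hmn
    simp only [hw]
    rw [(hh_mul R a).map_mul_of_coprime hmn, norm_mul, Nat.cast_mul,
      Real.mul_rpow (Nat.cast_nonneg _) (Nat.cast_nonneg _)]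
    ring
  have hsum : ∀ {p : ℕ}, p.Prime → Summable (fun n : ℕ => ‖w (p ^ n)‖) := by
    intro p hp
    have hp0 : (0 : ℝ) < p := by exact_mod_cast hp.pos
    by_cases hpR : p < R
    · refine (hs p hp hpR).congr fun k => ?_
      rw [Real.norm_of_nonneg (hw0 _)]
      simp only [hw]
      rcases Nat.eq_zero_or_pos k with rfl | hk
      · rw [pow_zero, hh_one, ha0 p hp hpR]
        simp
      · rw [hh_pow R a p hp k hk.ne', if_pos hpR]
        push_cast
        rw [← Real.rpow_natCast, ← Real.rpow_mul hp0.le, mul_comm (k : ℝ) β]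
    · apply summable_of_ne_finset_zero (s := {0})
      intro k hk
      rw [mem_singleton] at hk
      simp only [hw]
      rw [hh_pow R a p hp k hk, if_neg hpR]
      simp
  have h1 := (EulerProduct.summable_and_hasSum_smoothNumbers_prod_primesBelow_tsum hw1 hwm hsum R).1
  have h2 : Summable (fun m : R.smoothNumbers => w m) := by
    refine h1.congr fun m => Real.norm_of_nonneg (hw0 _)
  rw [show (fun m : R.smoothNumbers => w m) = w ∘ ((↑) : R.smoothNumbers → ℕ) from rfl,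
    summable_subtype_iff_indicator] at h2
  refine h2.congr fun m => ?_
  by_cases hm : m ∈ R.smoothNumbers
  · rw [Set.indicator_of_mem hm]
  · rw [Set.indicator_of_notMem hm]
    symm
    simp only [hw]
    rw [Nat.mem_smoothNumbers'] at hm
    push Not at hm
    obtain ⟨p, hp, hpm, hpR⟩ := hm
    by_cases hm0 : m = 0
    · subst hm0
      simp
    obtain ⟨k, m', hm', hmk⟩ := Nat.exists_eq_pow_mul_and_not_dvd hm0 p hp.ne_one
    have hk : k ≠ 0 := by
      rintro rfl
      rw [pow_zero, one_mul] at hmk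
      exact hm' (hmk ▸ hpm)
    have hc : Nat.Coprime (p ^ k) m' := (Nat.Prime.coprime_pow_of_not_dvd hp hm').symm
    rw [hmk, (hh_mul R a).map_mul_of_coprime hc, hh_pow R a p hp k hk, if_neg (by omega)]
    simp

/-- the partial sums of the convolution -/
lemma conv_bound (R : ℕ) (a : ℕ → ℕ → ℂ) (β : ℝ) (hβ : 0 ≤ β)
    (hsum : Summable fun m : ℕ => ‖hh R a m‖ * (m : ℝ) ^ β) (f : ℕ → ℂ) (C : ℝ) (hC : 0 ≤ C)
    (hf : ∀ N : ℕ, 1 ≤ N → ‖∑ n ∈ Icc 1 N, f n‖ ≤ C * (N : ℝ) ^ (-β)) :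
    ∃ C' : ℝ, 0 < C' ∧ ∀ N : ℕ, 1 ≤ N →
      ‖∑ n ∈ Icc 1 N, (hh R a * af f) n‖ ≤ C' * (N : ℝ) ^ (-β) := by
  set T := ∑' m : ℕ, ‖hh R a m‖ * (m : ℝ) ^ β with hT
  have hT0 : 0 ≤ T := tsum_nonneg fun m => mul_nonneg (norm_nonneg _)
    (Real.rpow_nonneg (Nat.cast_nonneg _) _)
  refine ⟨C * 2 ^ β * T + 1, by positivity, fun N hN => ?_⟩
  have hN0 : (0 : ℝ) < N := by exact_mod_cast hN
  have e1 : Icc 1 N = Ioc 0 N := by
    ext n; simp only [mem_Icc, mem_Ioc]; omega
  have key : ∀ d ∈ Ioc 0 N, ‖hh R a d * ∑ m ∈ Ioc 0 (N / d), af f m‖ ≤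
      (C * 2 ^ β * (N : ℝ) ^ (-β)) * (‖hh R a d‖ * (d : ℝ) ^ β) := by
    intro d hd
    rw [mem_Ioc] at hd
    have hd0 : (0 : ℝ) < d := by exact_mod_cast hd.1
    have hNd : 1 ≤ N / d := (Nat.one_le_div_iff hd.1).2 hd.2
    have h1 : ∑ m ∈ Ioc 0 (N / d), af f m = ∑ m ∈ Icc 1 (N / d), f m := by
      have e2 : Ioc 0 (N / d) = Icc 1 (N / d) := by
        ext n; simp only [mem_Icc, mem_Ioc]; omega
      rw [e2]
      apply sum_congr rfl
      intro m hm
      rw [mem_Icc] at hm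
      exact af_apply f m (by omega)
    have h2 : (N : ℝ) / (2 * d) ≤ ((N / d : ℕ) : ℝ) := by
      have h3 : N < 2 * d * (N / d) := by
        have h4 := Nat.lt_mul_div_succ N hd.1
        have h5 : d * (N / d + 1) ≤ 2 * d * (N / d) := by nlinarith
        omega
      rw [div_le_iff₀ (by positivity)]
      have h4 : (N : ℝ) ≤ ((2 * d * (N / d) : ℕ) : ℝ) := by exact_mod_cast h3.le
      push_cast at h4
      linarith
    have h3 : ((N / d : ℕ) : ℝ) ^ (-β) ≤ ((N : ℝ) / (2 * d)) ^ (-β) :=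
      Real.rpow_le_rpow_of_nonpos (by positivity) h2 (by linarith)
    have h4 : ((N : ℝ) / (2 * d)) ^ (-β) = 2 ^ β * (N : ℝ) ^ (-β) * (d : ℝ) ^ β := by
      rw [Real.div_rpow hN0.le (by positivity), Real.mul_rpow (by norm_num) hd0.le,
        Real.rpow_neg (by norm_num : (0 : ℝ) ≤ 2), Real.rpow_neg hd0.le]
      field_simp
    rw [norm_mul, h1]
    calc ‖hh R a d‖ * ‖∑ m ∈ Icc 1 (N / d), f m‖
        ≤ ‖hh R a d‖ * (C * (2 ^ β * (N : ℝ) ^ (-β) * (d : ℝ) ^ β)) := by
          apply mul_le_mul_of_nonneg_left _ (norm_nonneg _)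
          refine (hf _ hNd).trans ?_
          apply mul_le_mul_of_nonneg_left _ hC
          rw [← h4]
          exact h3
      _ = _ := by ring
  rw [e1, ArithmeticFunction.sum_Ioc_mul_eq_sum_sum]
  refine (norm_sum_le _ _).trans ((sum_le_sum key).trans ?_)
  rw [← mul_sum]
  have h5 : ∑ d ∈ Ioc 0 N, ‖hh R a d‖ * (d : ℝ) ^ β ≤ T :=
    hsum.sum_le_tsum _ fun m _ => mul_nonneg (norm_nonneg _)
      (Real.rpow_nonneg (Nat.cast_nonneg _) _)
  have h6 : 0 ≤ C * 2 ^ β * (N : ℝ) ^ (-β) := by positivity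
  have h7 : 0 ≤ (N : ℝ) ^ (-β) := by positivity
  nlinarith [mul_le_mul_of_nonneg_left h5 h6]

/-- the convolution at a prime power -/
lemma conv_pow (R : ℕ) (a : ℕ → ℕ → ℂ) (f : ℕ → ℂ) (p : ℕ) (hp : p.Prime) (k : ℕ) :
    (hh R a * af f) (p ^ k) = ∑ i ∈ range (k + 1), hh R a (p ^ i) * f (p ^ (k - i)) := by
  rw [ArithmeticFunction.mul_apply,
    Nat.sum_divisorsAntidiagonal (fun x y => hh R a x * af f y), Nat.sum_divisors_prime_pow hp]
  apply sum_congr rfl
  intro i hi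
  rw [mem_range] at hi
  rw [Nat.pow_div (by omega) hp.pos, af_apply _ _ (pow_ne_zero _ hp.ne_zero)]

/-- values of the convolution at powers of small primes -/
lemma conv_pow_small (R : ℕ) (a : ℕ → ℕ → ℂ) (f : ℕ → ℂ) (h1 : f 1 = 1) (p : ℕ) (hp : p.Prime)
    (hpR : p < R) (ha0 : a p 0 = 1) (hf : ∀ k, 1 ≤ k → f (p ^ k) = 0) (k : ℕ) :
    (hh R a * af f) (p ^ k) = a p k := by
  rw [conv_pow R a f p hp, sum_range_succ, sum_eq_zero, zero_add, Nat.sub_self, pow_zero, h1, mul_one]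
  · rcases Nat.eq_zero_or_pos k with rfl | hk
    · rw [pow_zero, hh_one, ha0]
    · rw [hh_pow R a p hp k hk.ne', if_pos hpR]
  · intro i hi
    rw [mem_range] at hi
    rw [hf (k - i) (by omega), mul_zero]

/-- values of the convolution at powers of large primes -/
lemma conv_pow_large (R : ℕ) (a : ℕ → ℕ → ℂ) (f : ℕ → ℂ) (p : ℕ) (hp : p.Prime)
    (hpR : R ≤ p) (k : ℕ) : (hh R a * af f) (p ^ k) = f (p ^ k) := by
  rw [conv_pow R a f p hp, sum_range_succ', sum_eq_zero, zero_add, Nat.sub_zero, pow_zero, hh_one,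
    one_mul]
  intro i hi
  rw [hh_pow R a p hp (i + 1) (by omega), if_neg (by omega), zero_mul]

end Pool.Agent.Y973.MO
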