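import Pool.Agent.Y973.MO.Sys

/-!
# The core function
-/

set_option autoImplicit false

namespace Pool.Agent.Y973.MO

open Finset Filter Topology
open scoped Classical
open Pool.Agent.W76.MO

/-- all the pieces together -/
theorem env_of (hRH : RiemannHypothesis) (BTRh : T_BTR) (ZAh : T_ZA) (GIh : T_GI) (BCh : T_BC) (CLh : T_CL) (FBh : T_FB)
    (HOh : Hosts) (USh : T_US) (HCh : T_HC) (GBh : T_GB)
    (ESh : T_ES) (UPh : T_UP) (SPh : T_SP) (PBh : T_PB) (H1h : T_H1) (HBh : T_HB) (HAh : T_HA)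
    (HXh : T_HX) : ∃ E : Env, E.HCount ∧ E.GBounds ∧
      ∃ R₀ : ℕ, ∀ R : ℕ, R₀ ≤ R → ∃ J : ℕ, ∀ j : ℕ, J ≤ j → E.Key R j := by
  have hFew : FewBad := FBh (BCh ZAh GIh) (CLh BTRh)
  obtain ⟨τ₀, γ₀, c, δ₀, hτ₀, hγ₀, hc, hδ₀, hhost⟩ := HOh
  set τ : ℝ := min (min τ₀ γ₀) (1 / 100) with hτd
  have hτ : 0 < τ := lt_min (lt_min hτ₀ hγ₀) (by norm_num)
  have hτ1 : τ ≤ 1 / 100 := min_le_right _ _
  set δ : ℝ := min δ₀ (τ / 1000) with hδd
  have hδ : 0 < δ := lt_min hδ₀ (by positivity)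
  have hδ1 : δ ≤ τ / 1000 := min_le_right _ _
  obtain ⟨i₀, hi₀, hhost⟩ := hhost δ hδ (min_le_left _ _)
  obtain ⟨isU, CU, cU, i₁, hCU, hcU, hi₁, hup, huu, hub⟩ := USh BTRh hFew hRH τ δ hτ hτ1 hδ hδ1
  obtain ⟨CB, hCB, i₂, hi₂, hbtr⟩ := BTRh τ (τ / 4) hτ (by positivity)
  let E : Env :=
    { τ := τ, δ := δ, CU := CU, cU := cU, cH := c, CB := max CB 1, isU := isU
      i₁ := i₀ + i₁ + i₂
      hτ := hτ, hτ' := hτ1, hδ := hδ, hδ' := hδ1, hCU := hCU, hcU := hcU, hcH := hc
      hCB := le_max_right _ _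
      hi₁ := by omega
      u_prime := hup
      u_up := fun i hi => huu i (by omega)
      u_bad := fun i hi => hub i (by omega)
      host := by
        intro i hi k hk
        have hmul := nc_mul δ hδ i
        have hlt : (k + 1) * hh δ i ≤ nc δ i * hh δ i := Nat.mul_le_mul_right _ hk
        have h1 := hhost i (by omega) (2 ^ i + k * hh δ i) (by omega) (by
          rw [pow_succ]
          have : k * hh δ i ≤ (k + 1) * hh δ i := Nat.mul_le_mul_right _ (Nat.le_succ k)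
          omega)
        refine h1.trans ?_
        have hi0 : (0 : ℝ) ≤ i := Nat.cast_nonneg i
        have hsub : (Ioc (2 ^ i + k * hh δ i) (2 ^ i + k * hh δ i + hh δ i)).filter
            (HostNum τ₀ γ₀ i) ⊆ (cell δ i k).filter (HostNum τ τ i) := by
          intro n hn
          rw [mem_filter, mem_Ioc] at hn
          rw [mem_filter]
          refine ⟨?_, ?_⟩
          · unfold cell
            rw [mem_Ioc]
            have : (k + 1) * hh δ i = k * hh δ i + hh δ i := by ring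
            omega
          · obtain ⟨m, q, h1, h2, h3, h4, h5, h6⟩ := hn.2
            refine ⟨m, q, h1, h2, ?_, h4, h5, ?_⟩
            · refine le_trans (Real.rpow_le_rpow_of_exponent_le (by norm_num) ?_) h3
              have : τ ≤ τ₀ := (min_le_left _ _).trans (min_le_left _ _)
              apply mul_le_mul_of_nonneg_right _ hi0
              linarith
            · intro p hp hpm
              refine le_trans (Real.rpow_le_rpow_of_exponent_le (by norm_num) ?_) (h6 p hp hpm)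
              have : τ ≤ γ₀ := (min_le_left _ _).trans (min_le_right _ _)
              exact mul_le_mul_of_nonneg_right this hi0
        exact_mod_cast Finset.card_le_card hsub
      btr := by
        intro i hi a L hL
        refine (hbtr i (by omega) a L hL).trans ?_
        have hi0 : (0 : ℝ) < i := by
          have : 0 < i := by omega
          exact_mod_cast this
        gcongr
        exact le_max_left _ _ }
  have hHC := HCh E
  have hGB := GBh E hHC
  have hES := ESh E hGB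
  have hUP := UPh E hGB hES
  have hSP := SPh E hGB
  have hPB := PBh τ δ hτ hτ1 hδ hδ1
  have hHP := HXh E hGB (H1h E hHC hGB) (HAh E hHC hGB hES) (HBh E hHC hGB hPB)
  exact ⟨E, hHC, hGB, E.key hGB hUP hHP hSP⟩


theorem env_rh (hRH : RiemannHypothesis) : ∃ E : Env, E.HCount ∧ E.GBounds ∧
      ∃ R₀ : ℕ, ∀ R : ℕ, R₀ ≤ R → ∃ J : ℕ, ∀ j : ℕ, J ≤ j → E.Key R j :=
  env_of hRH Pool.Agent.W761.MO.btr Pool.Agent.W613.MO.za Pool.Agent.W475.MO.gi
    Pool.Agent.W726.MOBC.main Pool.Agent.W815.CL.cellLow Pool.Agent.W475.MO.fb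
    (Pool.Agent.W544.MO.main Pool.Agent.W761.MO.btr midRange)
    Pool.Agent.W377.MOUS.us Pool.Agent.W501.MO.hc
    Pool.Agent.W683.MO.gb Pool.Agent.W280.MO.T_ES_proof Pool.Agent.W596.MO.upart
    Pool.Agent.W683.MO.sp Pool.Agent.W1.MO.pb Pool.Agent.W640.MO.h1 Pool.Agent.W356.MO.HB
    Pool.Agent.W326.MO.task_HA Pool.Agent.W356.MO.HX

theorem sol_core (E : Env) (Rm R j : ℕ) (z : ℕ × ℕ → ℝ) (hR : Rm ≤ R) (h : Env.Sol E R j z) :
    Core (1 / 2 + E.δ / 2) Rm (fun n => ((E.ff R j z n : ℝ) : ℂ)) := by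
  obtain ⟨C, hC, hb⟩ := h.bound
  have hsum : ∀ N : ℕ, ∑ n ∈ Icc 1 N, ((E.ff R j z n : ℝ) : ℂ) = ((E.SS R j z N : ℝ) : ℂ) := by
    intro N
    unfold Env.SS
    push_cast
    rfl
  have hpow : ∀ p : ℕ, p.Prime → ∀ k : ℕ, 2 ≤ k → E.ff R j z (p ^ k) = 0 := by
    intro p hp k hk
    unfold Env.ff
    rw [if_neg]
    rintro ⟨h1, _⟩
    have h2 : p * p ∣ p ^ k := by
      rw [← pow_two]
      exact pow_dvd_pow p hk
    have := h1 p h2
    exact hp.one_lt.ne' (Nat.isUnit_iff.1 this)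
  have h11 : E.ff R j z 1 = 1 := by
    unfold Env.ff Env.fz
    rw [if_pos]
    · simp
    · refine ⟨squarefree_one, fun p hp hd => ?_⟩
      exact absurd (Nat.dvd_one.1 hd) hp.one_lt.ne'
  have hlt : ∀ p : ℕ, p.Prime → |E.ff R j z p| < 1 := by
    intro p hp
    unfold Env.ff
    split_ifs
    · unfold Env.fz
      rw [hp.primeFactors, prod_singleton]
      have h1 := E.gz_le j z 1 h.z1 h.key.u0 p
      have h2 := h.small p hp
      have h3 : (1 : ℝ) / p ≤ 1 / 2 := by
        apply one_div_le_one_div_of_le (by norm_num)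
        exact_mod_cast hp.two_le
      have h4 : (0 : ℝ) ≤ 1 / p := by positivity
      calc |E.gz j z p - 1 / (p : ℝ)| ≤ |E.gz j z p| + |1 / (p : ℝ)| := abs_sub _ _
        _ < 1 := by
            rw [abs_of_nonneg h4]
            linarith
    · simp
  refine ⟨?_, ?_, ?_, ?_, C, hC, ?_⟩
  · show ((E.ff R j z 1 : ℝ) : ℂ) = 1
    rw [h11, Complex.ofReal_one]
  · intro m n _ _ hmn
    show ((E.ff R j z (m * n) : ℝ) : ℂ) = ((E.ff R j z m : ℝ) : ℂ) * ((E.ff R j z n : ℝ) : ℂ)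
    rw [E.ff_mul R j z m n hmn, Complex.ofReal_mul]
  · intro p hp hpR k hk
    show ((E.ff R j z (p ^ k) : ℝ) : ℂ) = 0
    have : E.ff R j z (p ^ k) = 0 := by
      unfold Env.ff
      rw [if_neg]
      rintro ⟨_, h2⟩
      have h3 := h2 p hp (dvd_pow_self p (by omega))
      have h4 : R ≤ p := by exact_mod_cast h3
      omega
    rw [this, Complex.ofReal_zero]
  · intro p hp _
    refine ⟨((1 + E.ff R j z p : ℝ) : ℂ), ?_, ?_⟩
    · have h1 := hlt p hp
      rw [abs_lt] at h1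
      have : (1 + E.ff R j z p : ℝ) ≠ 0 := by linarith [h1.1]
      exact_mod_cast this
    · apply tendsto_const_nhds.congr'
      filter_upwards [eventually_ge_atTop 2] with K hK
      have h2 : ∑ k ∈ range K, ((E.ff R j z (p ^ k) : ℝ) : ℂ) =
          ∑ k ∈ range 2, ((E.ff R j z (p ^ k) : ℝ) : ℂ) := by
        symm
        apply sum_subset (range_mono hK)
        intro k _ hk
        rw [mem_range, not_lt] at hk
        rw [hpow p hp k hk, Complex.ofReal_zero]
      rw [h2, sum_range_succ, sum_range_one, pow_zero, pow_one, h11]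
      push_cast
      rfl
  · intro N hN
    show ‖∑ n ∈ Icc 1 N, ((E.ff R j z n : ℝ) : ℂ)‖ ≤ _
    rw [hsum, Complex.norm_real, Real.norm_eq_abs]
    have h2 := hb N hN
    rw [show -(1 / 2 + E.δ / 2) = -(1 / 2 : ℝ) - E.δ / 2 by ring]
    exact h2

/-- **The core**: functions supported on rough numbers with partial sums `O(x^(-1/2-c))`. -/
theorem core : ∃ c : ℝ, 0 < c ∧ ∀ R : ℕ, ∃ f : ℕ → ℂ, Core (1 / 2 + c) R f := by
  by_cases hRH : RiemannHypothesis
  · obtain ⟨E, hHC, hGB, hKey⟩ := env_rh hRH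
    refine ⟨E.δ / 2, by have := E.hδ; positivity, fun Rm => ?_⟩
    obtain ⟨R, j, z, h0, h1, h2, h3, h4, h5, h6, h7⟩ := system_ge E Rm hGB hHC hKey
    exact ⟨_, sol_core E Rm R j z h0 (Env.Sol.mk h1 h2 h3 h4 h5 h6 h7 : Env.Sol E R j z)⟩
  · obtain ⟨α, ha, ha1, hz⟩ := Pool.Agent.W86.MO.exists_zero hRH
    refine ⟨α.re - 1 / 2, by linarith, fun R => ?_⟩
    obtain ⟨f, hf⟩ := fr_core α (by linarith) ha1 hz R
    refine ⟨f, ?_⟩
    rw [show (1 / 2 : ℝ) + (α.re - 1 / 2) = α.re by ring]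
    exact hf

end Pool.Agent.Y973.MO
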