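import Pool.Agent.Y973.MO.Core
import Pool.Agent.Y973.MO.Conv

/-!
# MO functions with prescribed local factors at finitely many primes
-/

set_option autoImplicit false

namespace Pool.Agent.Y973.MO

open Finset Filter Topology

theorem main : ∃ c : ℝ, 0 < c ∧ ∀ (R : ℕ) (a : ℕ → ℕ → ℂ),
    (∀ p : ℕ, p.Prime → p < R → a p 0 = 1 ∧
      Summable (fun k : ℕ => ‖a p k‖ * (p : ℝ) ^ ((1 / 2 + c) * k)) ∧ ∑' k : ℕ, a p k ≠ 0) →
    ∃ f : ℕ → ℂ, f 1 = 1 ∧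
      (∀ m n : ℕ, 1 ≤ m → 1 ≤ n → Nat.Coprime m n → f (m * n) = f m * f n) ∧
      Tendsto (fun N : ℕ => ∑ n ∈ Icc 1 N, f n) atTop (𝓝 0) ∧
      (∀ p : ℕ, p.Prime →
        ∃ L : ℂ, L ≠ 0 ∧ Tendsto (fun K : ℕ => ∑ k ∈ range K, f (p ^ k)) atTop (𝓝 L)) ∧
      (∀ p : ℕ, p.Prime → p < R → ∀ k : ℕ, f (p ^ k) = a p k) ∧
      ∃ C : ℝ, 0 < C ∧ ∀ x : ℝ, 1 ≤ x →
        ‖∑ n ∈ Icc 1 ⌊x⌋₊, f n‖ ≤ C * x ^ (-(1 / 2 : ℝ) - c) := by
  obtain ⟨c, hc, hcore⟩ := core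
  refine ⟨c, hc, fun R a ha => ?_⟩
  obtain ⟨f₀, h⟩ := hcore R
  obtain ⟨C₀, hC₀, hb₀⟩ := h.bound
  have hsum := hh_summable R a (1 / 2 + c) (fun p hp hpR => (ha p hp hpR).1)
    (fun p hp hpR => (ha p hp hpR).2.1)
  obtain ⟨C, hC, hb⟩ := conv_bound R a (1 / 2 + c) (by positivity) hsum f₀ C₀ hC₀.le hb₀
  have hmul : (hh R a * af f₀).IsMultiplicative := (hh_mul R a).mul (af_mul f₀ h.one h.mul)
  refine ⟨fun n => (hh R a * af f₀) n, hmul.1, fun m n _ _ hmn => hmul.map_mul_of_coprime hmn, ?_,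
    ?_, ?_, C * 2 ^ (1 / 2 + c), by positivity, ?_⟩
  · rw [tendsto_zero_iff_norm_tendsto_zero]
    have h1 : Tendsto (fun N : ℕ => C * (N : ℝ) ^ (-(1 / 2 + c))) atTop (𝓝 0) := by
      have h2 := ((tendsto_rpow_neg_atTop (show 0 < 1 / 2 + c by positivity)).comp
        tendsto_natCast_atTop_atTop).const_mul C
      rw [mul_zero] at h2
      exact h2
    refine squeeze_zero' (Eventually.of_forall fun _ => norm_nonneg _) ?_ h1
    filter_upwards [eventually_ge_atTop 1] with N hN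
    exact hb N hN
  · intro p hp
    by_cases hpR : p < R
    · obtain ⟨h0, h1, h2⟩ := ha p hp hpR
      refine ⟨∑' k : ℕ, a p k, h2, ?_⟩
      have h3 : Summable (a p) := by
        apply Summable.of_norm_bounded h1
        intro k
        have h4 : (1 : ℝ) ≤ (p : ℝ) ^ ((1 / 2 + c) * k) := by
          apply Real.one_le_rpow (by exact_mod_cast hp.one_le)
          positivity
        have h5 := norm_nonneg (a p k)
        nlinarith
      refine h3.hasSum.tendsto_sum_nat.congr fun K => ?_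
      apply sum_congr rfl
      intro k _
      exact (conv_pow_small R a f₀ h.one p hp hpR h0 (h.small p hp hpR) k).symm
    · obtain ⟨L, hL, hL2⟩ := h.large p hp (not_lt.1 hpR)
      refine ⟨L, hL, hL2.congr fun K => ?_⟩
      apply sum_congr rfl
      intro k _
      exact (conv_pow_large R a f₀ p hp (not_lt.1 hpR) k).symm
  · intro p hp hpR k
    exact conv_pow_small R a f₀ h.one p hp hpR (ha p hp hpR).1 (h.small p hp hpR) k
  · intro x hx
    have hN : 1 ≤ ⌊x⌋₊ := Nat.le_floor (by exact_mod_cast hx)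
    refine (hb _ hN).trans ?_
    have h1 : x / 2 ≤ (⌊x⌋₊ : ℝ) := by
      have h2 := Nat.lt_floor_add_one x
      have h3 : (1 : ℝ) ≤ (⌊x⌋₊ : ℝ) := by exact_mod_cast hN
      linarith
    have h4 : (⌊x⌋₊ : ℝ) ^ (-(1 / 2 + c)) ≤ (x / 2) ^ (-(1 / 2 + c)) :=
      Real.rpow_le_rpow_of_nonpos (by linarith) h1 (by linarith)
    have h5 : (x / 2) ^ (-(1 / 2 + c)) = 2 ^ (1 / 2 + c) * x ^ (-(1 / 2 : ℝ) - c) := by
      rw [Real.div_rpow (by linarith) two_pos.le, Real.rpow_neg two_pos.le, div_inv_eq_mul,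
        show -(1 / 2 + c) = -(1 / 2 : ℝ) - c by ring]
      ring
    rw [h5] at h4
    calc C * (⌊x⌋₊ : ℝ) ^ (-(1 / 2 + c)) ≤ C * (2 ^ (1 / 2 + c) * x ^ (-(1 / 2 : ℝ) - c)) :=
          mul_le_mul_of_nonneg_left h4 hC.le
      _ = _ := by ring

end Pool.Agent.Y973.MO
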