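import Pool.Agent.W86.MO.NRH
import Pool.Agent.H307R2.LU

/-!
# The core function when the Riemann hypothesis fails
-/

set_option autoImplicit false

namespace Pool.Agent.Y973.MO

open Finset Filter Topology

/-- a function supported on `R`-rough numbers with small partial sums -/
structure Core (β : ℝ) (R : ℕ) (f : ℕ → ℂ) : Prop where
  one : f 1 = 1
  mul : ∀ m n : ℕ, 1 ≤ m → 1 ≤ n → Nat.Coprime m n → f (m * n) = f m * f n
  small : ∀ p : ℕ, p.Prime → p < R → ∀ k : ℕ, 1 ≤ k → f (p ^ k) = 0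
  large : ∀ p : ℕ, p.Prime → R ≤ p →
    ∃ L : ℂ, L ≠ 0 ∧ Tendsto (fun K : ℕ => ∑ k ∈ range K, f (p ^ k)) atTop (𝓝 L)
  bound : ∃ C : ℝ, 0 < C ∧ ∀ N : ℕ, 1 ≤ N → ‖∑ n ∈ Icc 1 N, f n‖ ≤ C * (N : ℝ) ^ (-β)

lemma norm_pow_neg (α : ℂ) (n : ℕ) (hn : 1 ≤ n) : ‖(n : ℂ) ^ (-α)‖ = (n : ℝ) ^ (-α.re) := by
  rw [Complex.norm_natCast_cpow_of_pos hn]
  simp

/-- partial sums of `n^(-α)` at a zero -/
lemma zero_sum (α : ℂ) (h0 : 0 < α.re) (h1 : α.re < 1) (hz : riemannZeta α = 0) (N : ℕ)
    (hN : 1 ≤ N) : ∃ e : ℂ, ‖e‖ ≤ ‖α‖ / α.re * (N : ℝ) ^ (-α.re) ∧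
      ∑ n ∈ Icc 1 N, (n : ℂ) ^ (-α) = (N : ℂ) ^ (1 - α) / (1 - α) + e := by
  have hne : α ≠ 1 := by
    rintro rfl
    simp at h1
  have h := Pool.Agent.H307R2.zeta_eq hN h0 hne
  rw [hz] at h
  refine ⟨-(α * Pool.Agent.H307R2.TM N Pool.Agent.H307R2.Ez α), ?_, ?_⟩
  · rw [norm_neg, norm_mul]
    have h2 := Pool.Agent.H307R2.TM_norm_le hN Pool.Agent.H307R2.Ez_norm_le h0
    rw [one_mul] at h2
    calc ‖α‖ * ‖Pool.Agent.H307R2.TM N Pool.Agent.H307R2.Ez α‖
        ≤ ‖α‖ * ((N : ℝ) ^ (-α.re) / α.re) := mul_le_mul_of_nonneg_left h2 (norm_nonneg _)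
      _ = _ := by ring
  · have h3 : (1 : ℂ) - α ≠ 0 := sub_ne_zero.2 (Ne.symm hne)
    have h4 : α - 1 ≠ 0 := sub_ne_zero.2 hne
    have h5 : (N : ℂ) ^ (1 - α) / (α - 1) = -((N : ℂ) ^ (1 - α) / (1 - α)) := by
      field_simp
      ring
    rw [h5] at h
    linear_combination -h

/-- sum over multiples -/
lemma sum_mult (g : ℕ → ℂ) (d : ℕ) (hd : 1 ≤ d) (N : ℕ) :
    ∑ n ∈ (Icc 1 N).filter (fun n => d ∣ n), g n = ∑ m ∈ Icc 1 (N / d), g (d * m) := by
  symm
  apply sum_bij (fun m _ => d * m)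
  · intro m hm
    rw [mem_Icc] at hm
    rw [mem_filter, mem_Icc]
    refine ⟨⟨?_, ?_⟩, dvd_mul_right _ _⟩
    · have : 0 < d * m := Nat.mul_pos hd hm.1
      omega
    · rw [mul_comm]
      exact (Nat.le_div_iff_mul_le hd).1 hm.2
  · intro a _ b _ hab
    exact Nat.eq_of_mul_eq_mul_left hd hab
  · intro n hn
    rw [mem_filter, mem_Icc] at hn
    obtain ⟨⟨h1, h2⟩, m, rfl⟩ := hn
    refine ⟨m, ?_, rfl⟩
    rw [mem_Icc]
    refine ⟨?_, ?_⟩
    · rcases Nat.eq_zero_or_pos m with rfl | h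
      · simp at h1
      · exact h
    · rw [Nat.le_div_iff_mul_le hd, mul_comm]
      exact h2
  · intro m _
    rfl

/-- `n^(-α)`, times `1 - q` at the multiples of `q` -/
noncomputable def fq (α : ℂ) (q n : ℕ) : ℂ := (if q ∣ n then 1 - (q : ℂ) else 1) * (n : ℂ) ^ (-α)

lemma fq_sum (α : ℂ) (q : ℕ) (hq : 1 ≤ q) (N : ℕ) :
    ∑ n ∈ Icc 1 N, fq α q n = ∑ n ∈ Icc 1 N, (n : ℂ) ^ (-α) -
      q * (q : ℂ) ^ (-α) * ∑ n ∈ Icc 1 (N / q), (n : ℂ) ^ (-α) := by
  have e1 : ∀ n ∈ Icc 1 N, fq α q n = (n : ℂ) ^ (-α) -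
      (if q ∣ n then q * (n : ℂ) ^ (-α) else 0) := by
    intro n _
    unfold fq
    split_ifs <;> ring
  rw [sum_congr rfl e1, sum_sub_distrib, ← sum_filter, sum_mult _ q hq, mul_sum]
  congr 1
  apply sum_congr rfl
  intro m _
  rw [Nat.cast_mul, Complex.natCast_mul_natCast_cpow]
  ring

lemma fq_bound (α : ℂ) (h0 : 0 < α.re) (h1 : α.re < 1) (hz : riemannZeta α = 0) (q : ℕ)
    (hq : 1 ≤ q) : ∃ C : ℝ, 0 < C ∧ ∀ N : ℕ, 1 ≤ N →
      ‖∑ n ∈ Icc 1 N, fq α q n‖ ≤ C * (N : ℝ) ^ (-α.re) := by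
  set σ := α.re with hσ
  have hqr : (1 : ℝ) ≤ q := by exact_mod_cast hq
  have hq0 : (0 : ℝ) < q := by linarith
  set B : ℝ := ‖α‖ / σ with hB
  have hB0 : 0 ≤ B := by positivity
  set C1 : ℝ := q * 2 ^ σ + B * 2 ^ σ + q * (B * (2 * q) ^ σ) with hC1
  have hC10 : 0 ≤ C1 := by positivity
  set C2 : ℝ := q * (1 + q) * (q : ℝ) ^ σ with hC2
  refine ⟨C1 + C2 + 1, by positivity, fun N hN => ?_⟩
  have hN0 : (0 : ℝ) < N := by exact_mod_cast hN
  have hNσ : 0 < (N : ℝ) ^ (-σ) := by positivity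
  rcases Nat.eq_zero_or_pos (N / q) with hM | hM
  · -- `N < q`
    have hNq : N < q := by
      rcases Nat.div_eq_zero_iff.1 hM with h | h
      · omega
      · exact h
    have h2 : ‖∑ n ∈ Icc 1 N, fq α q n‖ ≤ q * (1 + q) := by
      refine (norm_sum_le _ _).trans ?_
      have h3 : ∀ n ∈ Icc 1 N, ‖fq α q n‖ ≤ 1 + q := by
        intro n hn
        rw [mem_Icc] at hn
        have h4 : ‖(n : ℂ) ^ (-α)‖ ≤ 1 := by
          rw [norm_pow_neg α n hn.1]
          apply Real.rpow_le_one_of_one_le_of_nonpos (by exact_mod_cast hn.1)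
          linarith
        unfold fq
        rw [norm_mul]
        have h5 : ‖(if q ∣ n then 1 - (q : ℂ) else 1)‖ ≤ 1 + q := by
          split_ifs
          · refine (norm_sub_le _ _).trans ?_
            simp
          · simp
        calc _ ≤ (1 + (q : ℝ)) * 1 := mul_le_mul h5 h4 (norm_nonneg _) (by positivity)
          _ = _ := mul_one _
      refine (sum_le_sum h3).trans ?_
      rw [sum_const, nsmul_eq_mul, Nat.card_Icc]
      have h4 : ((N + 1 - 1 : ℕ) : ℝ) ≤ q := by
        have : N + 1 - 1 ≤ q := by omega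
        exact_mod_cast this
      exact mul_le_mul_of_nonneg_right h4 (by positivity)
    have h3 : 1 ≤ (q : ℝ) ^ σ * (N : ℝ) ^ (-σ) := by
      rw [Real.rpow_neg hN0.le, ← div_eq_mul_inv, one_le_div (by positivity)]
      apply Real.rpow_le_rpow hN0.le _ h0.le
      exact_mod_cast hNq.le
    calc ‖∑ n ∈ Icc 1 N, fq α q n‖ ≤ q * (1 + q) * 1 := by rw [mul_one]; exact h2
      _ ≤ q * (1 + q) * ((q : ℝ) ^ σ * (N : ℝ) ^ (-σ)) :=
          mul_le_mul_of_nonneg_left h3 (by positivity)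
      _ = C2 * (N : ℝ) ^ (-σ) := by rw [hC2]; ring
      _ ≤ (C1 + C2 + 1) * (N : ℝ) ^ (-σ) := by nlinarith
  · set M := N / q with hMd
    have hM1 : 1 ≤ M := hM
    have hqM : q * M ≤ N := Nat.mul_div_le N q
    have hqM1 : 1 ≤ q * M := Nat.mul_pos hq hM
    have hlt : N < q * M + q := by
      have := Nat.lt_mul_div_succ N (show 0 < q by omega)
      rw [← hMd] at this
      nlinarith
    obtain ⟨e1, he1, hs1⟩ := zero_sum α h0 h1 hz (q * M) hqM1
    obtain ⟨e2, he2, hs2⟩ := zero_sum α h0 h1 hz M hM1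
    have hsplit : ∑ n ∈ Icc 1 N, (n : ℂ) ^ (-α) = ∑ n ∈ Icc 1 (q * M), (n : ℂ) ^ (-α) +
        ∑ n ∈ Ioc (q * M) N, (n : ℂ) ^ (-α) := by
      have h2 : Icc 1 N = Icc 1 (q * M) ∪ Ioc (q * M) N := by
        ext n
        simp only [mem_Icc, mem_union, mem_Ioc]
        omega
      rw [h2, sum_union]
      rw [disjoint_left]
      intro n hn hn'
      rw [mem_Icc] at hn
      rw [mem_Ioc] at hn'
      omega
    have hpow : (q : ℂ) * (q : ℂ) ^ (-α) * ((M : ℂ) ^ (1 - α)) = ((q * M : ℕ) : ℂ) ^ (1 - α) := by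
      rw [Nat.cast_mul, Complex.natCast_mul_natCast_cpow]
      have hqc : (q : ℂ) ≠ 0 := by
        have : q ≠ 0 := by omega
        exact_mod_cast this
      rw [sub_eq_add_neg 1 α, Complex.cpow_add _ _ hqc, Complex.cpow_one]
    have key : ∑ n ∈ Icc 1 N, fq α q n = ∑ n ∈ Ioc (q * M) N, (n : ℂ) ^ (-α) + e1 -
        q * (q : ℂ) ^ (-α) * e2 := by
      rw [fq_sum α q hq N, ← hMd, hsplit, hs1, hs2, ← hpow]
      ring
    have hx1 : ((q * M : ℕ) : ℝ) ^ (-σ) ≤ 2 ^ σ * (N : ℝ) ^ (-σ) := by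
      have h2 : (N : ℝ) / 2 ≤ ((q * M : ℕ) : ℝ) := by
        have h3 : N ≤ 2 * (q * M) := by
          have : q ≤ q * M := Nat.le_mul_of_pos_right q hM
          omega
        have h4 : (N : ℝ) ≤ ((2 * (q * M) : ℕ) : ℝ) := by exact_mod_cast h3
        push_cast at h4 ⊢
        linarith
      refine (Real.rpow_le_rpow_of_nonpos (by positivity) h2 (by linarith)).trans ?_
      rw [Real.div_rpow hN0.le (by norm_num), Real.rpow_neg (by norm_num : (0 : ℝ) ≤ 2), div_inv_eq_mul,
        mul_comm]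
    have hx2 : ((M : ℕ) : ℝ) ^ (-σ) ≤ (2 * q) ^ σ * (N : ℝ) ^ (-σ) := by
      have h2 : (N : ℝ) / (2 * q) ≤ (M : ℝ) := by
        have h3 : N ≤ 2 * (q * M) := by
          have : q ≤ q * M := Nat.le_mul_of_pos_right q hM
          omega
        have h4 : (N : ℝ) ≤ ((2 * (q * M) : ℕ) : ℝ) := by exact_mod_cast h3
        push_cast at h4
        rw [div_le_iff₀ (by positivity)]
        linarith
      refine (Real.rpow_le_rpow_of_nonpos (by positivity) h2 (by linarith)).trans ?_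
      rw [Real.div_rpow hN0.le (by positivity), Real.rpow_neg (by positivity : (0 : ℝ) ≤ 2 * q),
        div_inv_eq_mul, mul_comm]
    have hb1 : ‖∑ n ∈ Ioc (q * M) N, (n : ℂ) ^ (-α)‖ ≤ q * ((q * M : ℕ) : ℝ) ^ (-σ) := by
      refine (norm_sum_le _ _).trans ?_
      have h3 : ∀ n ∈ Ioc (q * M) N, ‖(n : ℂ) ^ (-α)‖ ≤ ((q * M : ℕ) : ℝ) ^ (-σ) := by
        intro n hn
        rw [mem_Ioc] at hn
        rw [norm_pow_neg α n (by omega)]
        apply Real.rpow_le_rpow_of_nonpos (by exact_mod_cast hqM1) _ (by linarith)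
        exact_mod_cast hn.1.le
      refine (sum_le_sum h3).trans ?_
      rw [sum_const, nsmul_eq_mul, Nat.card_Ioc]
      apply mul_le_mul_of_nonneg_right _ (by positivity)
      have : N - q * M ≤ q := by omega
      exact_mod_cast this
    have hqa : ‖(q : ℂ) * (q : ℂ) ^ (-α)‖ ≤ q := by
      rw [norm_mul, norm_pow_neg α q hq, Complex.norm_natCast]
      have h3 : (q : ℝ) ^ (-σ) ≤ 1 := Real.rpow_le_one_of_one_le_of_nonpos hqr (by linarith)
      nlinarith
    rw [key]
    have hA : ‖e1‖ ≤ B * (2 ^ σ * (N : ℝ) ^ (-σ)) :=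
      he1.trans (mul_le_mul_of_nonneg_left hx1 hB0)
    have hD : ‖e2‖ ≤ B * ((2 * q) ^ σ * (N : ℝ) ^ (-σ)) :=
      he2.trans (mul_le_mul_of_nonneg_left hx2 hB0)
    have hE : ‖(q : ℂ) * (q : ℂ) ^ (-α) * e2‖ ≤ q * (B * ((2 * q) ^ σ * (N : ℝ) ^ (-σ))) := by
      rw [norm_mul]
      exact mul_le_mul hqa hD (norm_nonneg _) hq0.le
    have hF : ‖∑ n ∈ Ioc (q * M) N, (n : ℂ) ^ (-α)‖ ≤ q * (2 ^ σ * (N : ℝ) ^ (-σ)) :=
      hb1.trans (mul_le_mul_of_nonneg_left hx1 hq0.le)
    calc _ ≤ ‖∑ n ∈ Ioc (q * M) N, (n : ℂ) ^ (-α)‖ + ‖e1‖ + ‖(q : ℂ) * (q : ℂ) ^ (-α) * e2‖ :=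
          (norm_sub_le _ _).trans (add_le_add (norm_add_le _ _) le_rfl)
      _ ≤ q * (2 ^ σ * (N : ℝ) ^ (-σ)) + B * (2 ^ σ * (N : ℝ) ^ (-σ)) +
          q * (B * ((2 * q) ^ σ * (N : ℝ) ^ (-σ))) := add_le_add (add_le_add hF hA) hE
      _ = C1 * (N : ℝ) ^ (-σ) := by rw [hC1]; ring
      _ ≤ (C1 + C2 + 1) * (N : ℝ) ^ (-σ) := by
          have : 0 ≤ C2 := by positivity
          nlinarith

open Classical in
/-- `fq` restricted to numbers all of whose prime factors are `≥ R` -/
noncomputable def fr (α : ℂ) (q R n : ℕ) : ℂ :=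
  if ∀ p : ℕ, p.Prime → p ∣ n → R ≤ p then fq α q n else 0

lemma fr_bound (α : ℂ) (h0 : 0 < α.re) (h1 : α.re < 1) (hz : riemannZeta α = 0) (q : ℕ)
    (hq : q.Prime) (R : ℕ) (hR : R ≤ q) : ∃ C : ℝ, 0 < C ∧ ∀ N : ℕ, 1 ≤ N →
      ‖∑ n ∈ Icc 1 N, fr α q R n‖ ≤ C * (N : ℝ) ^ (-α.re) := by
  classical
  set σ := α.re with hσ
  induction R with
  | zero =>
    obtain ⟨C, hC, hb⟩ := fq_bound α h0 h1 hz q hq.one_le
    refine ⟨C, hC, fun N hN => ?_⟩
    have e : ∀ n ∈ Icc 1 N, fr α q 0 n = fq α q n := by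
      intro n _
      unfold fr
      rw [if_pos (fun p _ _ => Nat.zero_le _)]
    rw [sum_congr rfl e]
    exact hb N hN
  | succ r ih =>
    obtain ⟨C, hC, hb⟩ := ih (by omega)
    by_cases hr : r.Prime
    · have hr0 : (0 : ℝ) < r := by exact_mod_cast hr.pos
      have hrq : r ≠ q := by omega
      have e1 : ∀ n : ℕ, fr α q (r + 1) n = fr α q r n - (if r ∣ n then fr α q r n else 0) := by
        intro n
        by_cases hrn : r ∣ n
        · rw [if_pos hrn, sub_self]
          unfold fr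
          rw [if_neg]
          intro h
          have := h r hr hrn
          omega
        · rw [if_neg hrn, sub_zero]
          unfold fr
          congr 1
          apply propext
          constructor
          · intro h p hp hpn
            exact (Nat.le_succ r).trans (h p hp hpn)
          · intro h p hp hpn
            have h2 := h p hp hpn
            have h3 : p ≠ r := by
              rintro rfl
              exact hrn hpn
            omega
      have e2 : ∀ m : ℕ, fr α q r (r * m) = (r : ℂ) ^ (-α) * fr α q r m := by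
        intro m
        unfold fr
        have h2 : (∀ p : ℕ, p.Prime → p ∣ r * m → r ≤ p) ↔ (∀ p : ℕ, p.Prime → p ∣ m → r ≤ p) := by
          constructor
          · intro h p hp hpm
            exact h p hp (hpm.mul_left r)
          · intro h p hp hpm
            rcases (Nat.Prime.dvd_mul hp).1 hpm with h3 | h3
            · rw [(Nat.prime_dvd_prime_iff_eq hp hr).1 h3]
            · exact h p hp h3
        have h3 : (q ∣ r * m) ↔ q ∣ m := by
          constructor
          · intro h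
            rcases (Nat.Prime.dvd_mul hq).1 h with h4 | h4
            · exact absurd ((Nat.prime_dvd_prime_iff_eq hq hr).1 h4).symm hrq
            · exact h4
          · intro h
            exact h.mul_left r
        by_cases h4 : ∀ p : ℕ, p.Prime → p ∣ m → r ≤ p
        · rw [if_pos (h2.2 h4), if_pos h4]
          unfold fq
          by_cases h5 : q ∣ m
          · rw [if_pos (h3.2 h5), if_pos h5, Nat.cast_mul, Complex.natCast_mul_natCast_cpow]
            ring
          · rw [if_neg (fun h => h5 (h3.1 h)), if_neg h5, Nat.cast_mul,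
              Complex.natCast_mul_natCast_cpow]
            ring
        · rw [if_neg (fun h => h4 (h2.1 h)), if_neg h4, mul_zero]
      refine ⟨C + C * (2 * r) ^ σ, by positivity, fun N hN => ?_⟩
      have hN0 : (0 : ℝ) < N := by exact_mod_cast hN
      rw [sum_congr rfl fun n _ => e1 n, sum_sub_distrib, ← sum_filter, sum_mult _ r hr.one_le,
        sum_congr rfl fun m _ => e2 m, ← mul_sum]
      refine (norm_sub_le _ _).trans ?_
      rw [add_mul]
      refine add_le_add (hb N hN) ?_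
      rw [norm_mul, norm_pow_neg α r hr.one_le]
      have h5 : (r : ℝ) ^ (-α.re) ≤ 1 :=
        Real.rpow_le_one_of_one_le_of_nonpos (by exact_mod_cast hr.one_le) (by linarith)
      rcases Nat.eq_zero_or_pos (N / r) with hM | hM
      · rw [hM]
        simp only [show Icc 1 0 = (∅ : Finset ℕ) from rfl, sum_empty, norm_zero, mul_zero]
        positivity
      · have h6 := hb (N / r) hM
        have h7 : (N : ℝ) / (2 * r) ≤ ((N / r : ℕ) : ℝ) := by
          have h3 : N ≤ 2 * (r * (N / r)) := by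
            have h8 := Nat.lt_mul_div_succ N hr.pos
            have : r ≤ r * (N / r) := Nat.le_mul_of_pos_right r hM
            have h9 : r * (N / r + 1) = r * (N / r) + r := by ring
            omega
          have h4 : (N : ℝ) ≤ ((2 * (r * (N / r)) : ℕ) : ℝ) := by exact_mod_cast h3
          rw [div_le_iff₀ (by positivity)]
          push_cast [-Nat.cast_div_charZero] at h4
          linarith
        have h8 : ((N / r : ℕ) : ℝ) ^ (-σ) ≤ (2 * r) ^ σ * (N : ℝ) ^ (-σ) := by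
          refine (Real.rpow_le_rpow_of_nonpos (by positivity) h7 (by linarith)).trans ?_
          rw [Real.div_rpow hN0.le (by positivity), Real.rpow_neg (by positivity : (0 : ℝ) ≤ 2 * r),
            div_inv_eq_mul, mul_comm]
        calc (r : ℝ) ^ (-α.re) * ‖∑ n ∈ Icc 1 (N / r), fr α q r n‖
            ≤ 1 * (C * ((2 * r) ^ σ * (N : ℝ) ^ (-σ))) :=
              mul_le_mul h5 (h6.trans (mul_le_mul_of_nonneg_left h8 hC.le)) (norm_nonneg _) (by norm_num)
          _ = _ := by ring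
    · refine ⟨C, hC, fun N hN => ?_⟩
      have e : ∀ n ∈ Icc 1 N, fr α q (r + 1) n = fr α q r n := by
        intro n _
        unfold fr
        congr 1
        apply propext
        constructor
        · intro h p hp hpn
          exact (Nat.le_succ r).trans (h p hp hpn)
        · intro h p hp hpn
          have h2 := h p hp hpn
          have h3 : p ≠ r := by
            rintro rfl
            exact hr hp
          omega
      rw [sum_congr rfl e]
      exact hb N hN

open Classical in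
lemma fr_core (α : ℂ) (h0 : 0 < α.re) (h1 : α.re < 1) (hz : riemannZeta α = 0) (R : ℕ) :
    ∃ f : ℕ → ℂ, Core α.re R f := by
  obtain ⟨q, hRq, hq⟩ := Nat.exists_infinite_primes R
  have hpw : ∀ p : ℕ, p.Prime → ‖(p : ℂ) ^ (-α)‖ < 1 := by
    intro p hp
    rw [norm_pow_neg α p hp.one_le]
    exact Real.rpow_lt_one_of_one_lt_of_neg (by exact_mod_cast hp.one_lt) (by linarith)
  refine ⟨fr α q R, ⟨?_, ?_, ?_, ?_, fr_bound α h0 h1 hz q hq R hRq⟩⟩
  · unfold fr fq
    rw [if_pos, if_neg]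
    · simp
    · rw [Nat.dvd_one]
      exact hq.one_lt.ne'
    · intro p hp hp1
      exact absurd (Nat.dvd_one.1 hp1) hp.one_lt.ne'
  · intro m n _ _ hmn
    have h2 : (∀ p : ℕ, p.Prime → p ∣ m * n → R ≤ p) ↔
        (∀ p : ℕ, p.Prime → p ∣ m → R ≤ p) ∧ (∀ p : ℕ, p.Prime → p ∣ n → R ≤ p) := by
      constructor
      · intro h
        exact ⟨fun p hp hd => h p hp (hd.mul_right n), fun p hp hd => h p hp (hd.mul_left m)⟩
      · rintro ⟨h3, h4⟩ p hp hd
        rcases (Nat.Prime.dvd_mul hp).1 hd with h | h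
        · exact h3 p hp h
        · exact h4 p hp h
    have h3 : fq α q (m * n) = fq α q m * fq α q n := by
      unfold fq
      rw [Nat.cast_mul, Complex.natCast_mul_natCast_cpow]
      by_cases hm : q ∣ m
      · have hn : ¬ q ∣ n := by
          intro hn
          have h4 : q ∣ Nat.gcd m n := Nat.dvd_gcd hm hn
          rw [hmn] at h4
          exact hq.one_lt.ne' (Nat.dvd_one.1 h4)
        rw [if_pos (hm.mul_right n), if_pos hm, if_neg hn]
        ring
      · by_cases hn : q ∣ n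
        · rw [if_pos (hn.mul_left m), if_neg hm, if_pos hn]
          ring
        · rw [if_neg, if_neg hm, if_neg hn]
          · ring
          · intro h
            rcases (Nat.Prime.dvd_mul hq).1 h with h5 | h5
            · exact hm h5
            · exact hn h5
    unfold fr
    by_cases hm : ∀ p : ℕ, p.Prime → p ∣ m → R ≤ p
    · by_cases hn : ∀ p : ℕ, p.Prime → p ∣ n → R ≤ p
      · rw [if_pos (h2.2 ⟨hm, hn⟩), if_pos hm, if_pos hn, h3]
      · rw [if_neg (fun h => hn (h2.1 h).2), if_neg hn, mul_zero]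
    · rw [if_neg (fun h => hm (h2.1 h).1), if_neg hm, zero_mul]
  · intro p hp hpR k hk
    unfold fr
    rw [if_neg]
    intro h
    have := h p hp (dvd_pow_self p (by omega))
    omega
  · intro p hp hpR
    set x : ℂ := (p : ℂ) ^ (-α) with hx
    have hx1 : ‖x‖ < 1 := hpw p hp
    have hne : 1 - x ≠ 0 := by
      intro h
      have h2 : x = 1 := by linear_combination -h
      rw [h2] at hx1
      simp at hx1
    have hgeo : Tendsto (fun K : ℕ => ∑ k ∈ range K, x ^ k) atTop (𝓝 (1 - x)⁻¹) :=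
      (hasSum_geometric_of_norm_lt_one hx1).tendsto_sum_nat
    have hrough : ∀ k : ℕ, ∀ r : ℕ, r.Prime → r ∣ p ^ k → R ≤ r := by
      intro k r hr hrk
      have h2 := hr.dvd_of_dvd_pow hrk
      rw [(Nat.prime_dvd_prime_iff_eq hr hp).1 h2]
      exact hpR
    have hval : ∀ k : ℕ, fr α q R (p ^ k) = (if q ∣ p ^ k then 1 - (q : ℂ) else 1) * x ^ k := by
      intro k
      unfold fr fq
      rw [if_pos (hrough k), Pool.Agent.W86.MO.pow_cpow]
    by_cases hpq : p = q
    · refine ⟨(1 - (q : ℂ)) * (1 - x)⁻¹ + q, ?_, ?_⟩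
      · intro h
        have h3 : (q : ℂ) * x = 1 := by
          field_simp at h
          linear_combination -h
        have h4 : ‖(q : ℂ) * x‖ = 1 := by rw [h3]; simp
        rw [norm_mul, hx, norm_pow_neg α p hp.one_le, hpq, Complex.norm_natCast] at h4
        have hq1 : (1 : ℝ) < q := by exact_mod_cast hq.one_lt
        have h6 : (q : ℝ) * (q : ℝ) ^ (-α.re) = (q : ℝ) ^ (1 - α.re) := by
          rw [sub_eq_add_neg, Real.rpow_add (by linarith), Real.rpow_one]
        rw [h6] at h4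
        have h7 : (1 : ℝ) < (q : ℝ) ^ (1 - α.re) := Real.one_lt_rpow hq1 (by linarith)
        linarith
      · have h3 := (hgeo.const_mul (1 - (q : ℂ))).add_const (q : ℂ)
        refine h3.congr' ?_
        filter_upwards [eventually_ge_atTop 1] with K hK
        obtain ⟨K, rfl⟩ : ∃ J, K = J + 1 := ⟨K - 1, by omega⟩
        rw [sum_range_succ', sum_range_succ']
        have h4 : ∀ k ∈ range K, fr α q R (p ^ (k + 1)) = (1 - (q : ℂ)) * x ^ (k + 1) := by
          intro k _
          rw [hval, if_pos]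
          rw [hpq]
          exact dvd_pow_self q (by omega)
        rw [sum_congr rfl h4, ← mul_sum, hval 0, if_neg]
        · simp only [pow_zero]
          ring
        · rw [pow_zero, Nat.dvd_one]
          exact hq.one_lt.ne'
    · refine ⟨(1 - x)⁻¹, inv_ne_zero hne, ?_⟩
      refine hgeo.congr fun K => ?_
      apply sum_congr rfl
      intro k _
      rw [hval, if_neg, one_mul]
      intro h
      exact hpq ((Nat.prime_dvd_prime_iff_eq hq hp).1 (hq.dvd_of_dvd_pow h)).symm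

end Pool.Agent.Y973.MO
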